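import Mathlib

/-!
# PSL_2(q), products of derangements: conjugation and the product lemma (helper60)
-/

set_option autoImplicit false

namespace Pool.Agent.Helper60.Psl

open Matrix

variable {F : Type*} [Field F]

/-- conjugation of `SL_2(F)` by an element of `GL_2(F)` -/
def cj (P : GL (Fin 2) F) : SpecialLinearGroup (Fin 2) F →* SpecialLinearGroup (Fin 2) F where
  toFun x := ⟨(P : Matrix (Fin 2) (Fin 2) F) * (x : Matrix (Fin 2) (Fin 2) F) * ((P⁻¹ : GL (Fin 2) F) : Matrix (Fin 2) (Fin 2) F), by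
    rw [Matrix.det_units_conj]; exact x.2⟩
  map_one' := by
    apply Subtype.ext
    simp
  map_mul' x y := by
    apply Subtype.ext
    have h : ((P⁻¹ : GL (Fin 2) F) : Matrix (Fin 2) (Fin 2) F) * (P : Matrix (Fin 2) (Fin 2) F) = 1 := by
      rw [← Units.val_mul]; simp
    show (P : Matrix (Fin 2) (Fin 2) F) * ((x : Matrix (Fin 2) (Fin 2) F) * (y : Matrix (Fin 2) (Fin 2) F)) * ((P⁻¹ : GL (Fin 2) F) : Matrix (Fin 2) (Fin 2) F)
        = ((P : Matrix (Fin 2) (Fin 2) F) * (x : Matrix (Fin 2) (Fin 2) F) * ((P⁻¹ : GL (Fin 2) F) : Matrix (Fin 2) (Fin 2) F)) *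
          ((P : Matrix (Fin 2) (Fin 2) F) * (y : Matrix (Fin 2) (Fin 2) F) * ((P⁻¹ : GL (Fin 2) F) : Matrix (Fin 2) (Fin 2) F))
    calc (P : Matrix (Fin 2) (Fin 2) F) * ((x : Matrix (Fin 2) (Fin 2) F) * (y : Matrix (Fin 2) (Fin 2) F)) * ((P⁻¹ : GL (Fin 2) F) : Matrix (Fin 2) (Fin 2) F)
        = (P : Matrix (Fin 2) (Fin 2) F) * (x : Matrix (Fin 2) (Fin 2) F) * 1 * (y : Matrix (Fin 2) (Fin 2) F) * ((P⁻¹ : GL (Fin 2) F) : Matrix (Fin 2) (Fin 2) F) := by
          simp only [Matrix.mul_assoc, Matrix.one_mul]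
      _ = _ := by rw [← h]; simp only [Matrix.mul_assoc]

theorem cj_val (P : GL (Fin 2) F) (x : SpecialLinearGroup (Fin 2) F) :
    (cj P x : Matrix (Fin 2) (Fin 2) F) = (P : Matrix (Fin 2) (Fin 2) F) * (x : Matrix (Fin 2) (Fin 2) F) * ((P⁻¹ : GL (Fin 2) F) : Matrix (Fin 2) (Fin 2) F) := rfl

theorem cj_cj (P : GL (Fin 2) F) (x : SpecialLinearGroup (Fin 2) F) : cj P (cj P⁻¹ x) = x := by
  apply Subtype.ext
  have h : (P : Matrix (Fin 2) (Fin 2) F) * ((P⁻¹ : GL (Fin 2) F) : Matrix (Fin 2) (Fin 2) F) = 1 := by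
    rw [← Units.val_mul]; simp
  rw [cj_val, cj_val, inv_inv]
  calc _ = ((P : Matrix (Fin 2) (Fin 2) F) * ((P⁻¹ : GL (Fin 2) F) : Matrix (Fin 2) (Fin 2) F)) * (x : Matrix (Fin 2) (Fin 2) F) *
        ((P : Matrix (Fin 2) (Fin 2) F) * ((P⁻¹ : GL (Fin 2) F) : Matrix (Fin 2) (Fin 2) F)) := by simp only [Matrix.mul_assoc]
    _ = _ := by rw [h]; simp

/-- the trace of an element of `SL_2(F)` -/
def tr (x : SpecialLinearGroup (Fin 2) F) : F := (x : Matrix (Fin 2) (Fin 2) F).trace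

theorem tr_cj (P : GL (Fin 2) F) (x : SpecialLinearGroup (Fin 2) F) : tr (cj P x) = tr x := by
  unfold tr
  rw [cj_val, Matrix.trace_units_conj]

theorem tr_def (x : SpecialLinearGroup (Fin 2) F) : tr x = x 0 0 + x 1 1 := by
  unfold tr
  rw [Matrix.trace_fin_two]

/-- scalar elements -/
def Sc (x : SpecialLinearGroup (Fin 2) F) : Prop := x 0 1 = 0 ∧ x 1 0 = 0 ∧ x 0 0 = x 1 1

theorem det_eq (x : SpecialLinearGroup (Fin 2) F) : x 0 0 * x 1 1 - x 0 1 * x 1 0 = 1 := by
  have := x.2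
  rwa [Matrix.det_fin_two] at this

theorem Sc.mat {x : SpecialLinearGroup (Fin 2) F} (h : Sc x) : (x : Matrix (Fin 2) (Fin 2) F) = (x 0 0) • (1 : Matrix (Fin 2) (Fin 2) F) := by
  obtain ⟨h1, h2, h3⟩ := h
  ext i j
  fin_cases i <;> fin_cases j <;> simp [h1, h2, h3]

theorem Sc.cj {x : SpecialLinearGroup (Fin 2) F} (h : Sc x) (P : GL (Fin 2) F) : cj P x = x := by
  apply Subtype.ext
  rw [cj_val, h.mat]
  simp

theorem not_sc_cj {x : SpecialLinearGroup (Fin 2) F} (h : ¬ Sc x) (P : GL (Fin 2) F) : ¬ Sc (cj P x) := by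
  intro hs
  apply h
  have h1 := hs.cj P⁻¹
  have h2 := cj_cj P⁻¹ x
  rw [inv_inv] at h2
  rw [h2] at h1
  rw [h1]
  exact hs

/-- the companion matrix -/
def comp (t : F) : SpecialLinearGroup (Fin 2) F := ⟨!![0, -1; 1, t], by simp [Matrix.det_fin_two]⟩

/-- rational canonical form -/
theorem canon (g : SpecialLinearGroup (Fin 2) F) (hg : ¬ Sc g) : ∃ P : GL (Fin 2) F, cj P (comp (tr g)) = g := by
  have key : ∀ v w : F, v * (g 1 0 * v + g 1 1 * w) - w * (g 0 0 * v + g 0 1 * w) ≠ 0 →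
      ∃ P : GL (Fin 2) F, cj P (comp (tr g)) = g := by
    intro v w hd
    have hd' : (!![v, g 0 0 * v + g 0 1 * w; w, g 1 0 * v + g 1 1 * w] : Matrix (Fin 2) (Fin 2) F).det ≠ 0 := by
      rw [Matrix.det_fin_two]
      simp only [Matrix.of_apply, Matrix.cons_val', Matrix.cons_val_zero, Matrix.cons_val_one, Matrix.cons_val_fin_one]
      intro h
      apply hd
      rw [← h]
      ring
    let P : GL (Fin 2) F := Matrix.GeneralLinearGroup.mkOfDetNeZero _ hd'
    refine ⟨P, ?_⟩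
    apply Subtype.ext
    rw [cj_val]
    have h1 : (P : Matrix (Fin 2) (Fin 2) F) * ((comp (tr g) : SpecialLinearGroup (Fin 2) F) : Matrix (Fin 2) (Fin 2) F) = (g : Matrix (Fin 2) (Fin 2) F) * (P : Matrix (Fin 2) (Fin 2) F) := by
      have hdet := det_eq g
      have ht := tr_def g
      have e1 : (P : Matrix (Fin 2) (Fin 2) F) = !![v, g 0 0 * v + g 0 1 * w; w, g 1 0 * v + g 1 1 * w] := rfl
      have e2 : ((comp (tr g) : SpecialLinearGroup (Fin 2) F) : Matrix (Fin 2) (Fin 2) F) = !![0, -1; 1, tr g] := rfl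
      have e3 : (g : Matrix (Fin 2) (Fin 2) F) = !![g 0 0, g 0 1; g 1 0, g 1 1] := Matrix.eta_fin_two _
      rw [e1, e2, ht]
      conv_rhs => rw [e3]
      ext i j
      fin_cases i <;> fin_cases j
      · simp [Matrix.mul_apply, Fin.sum_univ_two]
      · simp [Matrix.mul_apply, Fin.sum_univ_two]
        linear_combination v * hdet
      · simp [Matrix.mul_apply, Fin.sum_univ_two]
      · simp [Matrix.mul_apply, Fin.sum_univ_two]
        linear_combination w * hdet
    have h2 : (P : Matrix (Fin 2) (Fin 2) F) * ((P⁻¹ : GL (Fin 2) F) : Matrix (Fin 2) (Fin 2) F) = 1 := by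
      rw [← Units.val_mul]; simp
    rw [h1, Matrix.mul_assoc, h2, Matrix.mul_one]
  by_cases hc : g 1 0 = 0
  · by_cases hb : g 0 1 = 0
    · refine key 1 1 ?_
      intro h
      apply hg
      refine ⟨hb, hc, ?_⟩
      rw [hc, hb] at h
      linear_combination -h
    · refine key 0 1 ?_
      intro h
      apply hb
      linear_combination -h
  · refine key 1 0 ?_
    intro h
    apply hc
    linear_combination h

/-- elements which are not scalar and have the same trace are conjugate -/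
theorem conj_of_tr {g h : SpecialLinearGroup (Fin 2) F} (hg : ¬ Sc g) (hh : ¬ Sc h) (ht : tr g = tr h) :
    ∃ P : GL (Fin 2) F, cj P h = g := by
  obtain ⟨P, hP⟩ := canon g hg
  obtain ⟨Q, hQ⟩ := canon h hh
  refine ⟨P * Q⁻¹, ?_⟩
  have h1 : cj (P * Q⁻¹) h = cj P (cj Q⁻¹ h) := by
    apply Subtype.ext
    rw [cj_val, cj_val, cj_val]
    simp only [_root_.mul_inv_rev, Units.val_mul, Matrix.mul_assoc]
  have h2 : cj Q⁻¹ h = comp (tr h) := by
    have := cj_cj Q⁻¹ (comp (tr h))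
    rw [inv_inv] at this
    rw [hQ] at this
    exact this
  rw [h1, h2, ← ht, hP]

/-- **the product lemma**: a conic in the plane of `(a, b)` -/
theorem prod_of_conic (g : SpecialLinearGroup (Fin 2) F) (hg : ¬ Sc g) (α β a b : F)
    (h : a * (α - a) - b * (β + b - a * tr g) = 1) :
    ∃ x y : SpecialLinearGroup (Fin 2) F, tr x = α ∧ tr y = β ∧ x * y = g := by
  obtain ⟨P, hP⟩ := canon g hg
  have hx : (!![a, b; β + b - a * tr g, α - a] : Matrix (Fin 2) (Fin 2) F).det = 1 := by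
    rw [Matrix.det_fin_two]
    simp only [Matrix.of_apply, Matrix.cons_val', Matrix.cons_val_zero, Matrix.cons_val_one, Matrix.cons_val_fin_one]
    linear_combination h
  have hy : (!![-b, a - α - b * tr g; a, β + b] : Matrix (Fin 2) (Fin 2) F).det = 1 := by
    rw [Matrix.det_fin_two]
    simp only [Matrix.of_apply, Matrix.cons_val', Matrix.cons_val_zero, Matrix.cons_val_one, Matrix.cons_val_fin_one]
    linear_combination h
  let x : SpecialLinearGroup (Fin 2) F := ⟨_, hx⟩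
  let y : SpecialLinearGroup (Fin 2) F := ⟨_, hy⟩
  have hxyM : (x : Matrix (Fin 2) (Fin 2) F) * (y : Matrix (Fin 2) (Fin 2) F) = ((comp (tr g) : SpecialLinearGroup (Fin 2) F) : Matrix (Fin 2) (Fin 2) F) := by
    have e1 : (x : Matrix (Fin 2) (Fin 2) F) = !![a, b; β + b - a * tr g, α - a] := rfl
    have e2 : (y : Matrix (Fin 2) (Fin 2) F) = !![-b, a - α - b * tr g; a, β + b] := rfl
    have e3 : ((comp (tr g) : SpecialLinearGroup (Fin 2) F) : Matrix (Fin 2) (Fin 2) F) = !![0, -1; 1, tr g] := rfl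
    rw [e1, e2, e3]
    ext i j
    fin_cases i <;> fin_cases j
    · simp [Matrix.mul_apply, Fin.sum_univ_two]; ring
    · simp [Matrix.mul_apply, Fin.sum_univ_two]
      linear_combination -h
    · simp [Matrix.mul_apply, Fin.sum_univ_two]
      linear_combination h
    · simp [Matrix.mul_apply, Fin.sum_univ_two]
      linear_combination (tr g) * h
  have hxy : x * y = comp (tr g) := Subtype.ext hxyM
  refine ⟨cj P x, cj P y, ?_, ?_, ?_⟩
  · rw [tr_cj, tr_def]
    show a + (α - a) = α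
    ring
  · rw [tr_cj, tr_def]
    show -b + (β + b) = β
    ring
  · rw [← map_mul, hxy, hP]

end Pool.Agent.Helper60.Psl
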