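import Pool.Agent.Helper60.Psl.A

/-!
# PSL_2(q), products of derangements: the four product lemmas (helper60)
-/

set_option autoImplicit false

namespace Pool.Agent.Helper60.Psl

open Matrix Polynomial

variable {F : Type*} [Field F]

/-- an element of `SL_2` as an element of `GL_2` -/
def gl (h : SpecialLinearGroup (Fin 2) F) : GL (Fin 2) F := Matrix.SpecialLinearGroup.toGL h

theorem cj_gl (h x : SpecialLinearGroup (Fin 2) F) : cj (gl h) x = h * x * h⁻¹ := by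
  apply Subtype.ext
  rw [cj_val]
  show _ = (h : Matrix (Fin 2) (Fin 2) F) * (x : Matrix (Fin 2) (Fin 2) F) * ((h⁻¹ : SpecialLinearGroup (Fin 2) F) : Matrix (Fin 2) (Fin 2) F)
  have e1 : ((gl h : GL (Fin 2) F) : Matrix (Fin 2) (Fin 2) F) = (h : Matrix (Fin 2) (Fin 2) F) := rfl
  have e2 : (((gl h)⁻¹ : GL (Fin 2) F) : Matrix (Fin 2) (Fin 2) F) = ((h⁻¹ : SpecialLinearGroup (Fin 2) F) : Matrix (Fin 2) (Fin 2) F) := by
    unfold gl
    rw [← map_inv]
    rfl
  rw [e1, e2]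

theorem tr_conj (h x : SpecialLinearGroup (Fin 2) F) : tr (h * x * h⁻¹) = tr x := by
  rw [← cj_gl, tr_cj]

/-- minus the identity -/
def m1 : SpecialLinearGroup (Fin 2) F := ⟨!![-1, 0; 0, -1], by simp [Matrix.det_fin_two]⟩

theorem m1_mul (x : SpecialLinearGroup (Fin 2) F) : ((m1 * x : SpecialLinearGroup (Fin 2) F) : Matrix (Fin 2) (Fin 2) F) = -(x : Matrix (Fin 2) (Fin 2) F) := by
  show (m1 : SpecialLinearGroup (Fin 2) F).1 * (x : Matrix (Fin 2) (Fin 2) F) = _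
  have e : (m1 : SpecialLinearGroup (Fin 2) F).1 = -(1 : Matrix (Fin 2) (Fin 2) F) := by
    ext i j
    fin_cases i <;> fin_cases j <;> simp [m1]
  rw [e]; simp

theorem tr_m1 (x : SpecialLinearGroup (Fin 2) F) : tr (m1 * x) = -tr x := by
  unfold tr
  rw [m1_mul, Matrix.trace_neg]

theorem sc_m1 {x : SpecialLinearGroup (Fin 2) F} (h : Sc (m1 * x)) : Sc x := by
  obtain ⟨h1, h2, h3⟩ := h
  rw [m1_mul] at h1 h2 h3
  simp only [Matrix.neg_apply, neg_eq_zero, neg_inj] at h1 h2 h3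
  exact ⟨h1, h2, h3⟩

/-- no conjugate of `x` lies in `K` -/
def Dr (K : Subgroup (SpecialLinearGroup (Fin 2) F)) (x : SpecialLinearGroup (Fin 2) F) : Prop :=
  ∀ h : SpecialLinearGroup (Fin 2) F, h * x * h⁻¹ ∉ K

variable {K : Subgroup (SpecialLinearGroup (Fin 2) F)}

theorem dr_of_tr {α : F} (h : ∀ x ∈ K, tr x ≠ α) {x : SpecialLinearGroup (Fin 2) F} (hx : tr x = α) : Dr K x := by
  intro g hg
  exact h _ hg (by rw [tr_conj, hx])

theorem dr_of_neg (hm : m1 ∈ K) {α : F} (h : ∀ x ∈ K, tr x ≠ α) {x : SpecialLinearGroup (Fin 2) F} (hx : tr x = -α) : Dr K x := by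
  intro g hg
  refine h _ (K.mul_mem hm hg) ?_
  rw [tr_m1, tr_conj, hx, neg_neg]

/-- a split class which does not meet `K` -/
theorem prod_split {l : F} (hl : l ≠ 0) (h : ∀ x ∈ K, tr x ≠ l + l⁻¹) (g : SpecialLinearGroup (Fin 2) F) (hg : ¬ Sc g) :
    ∃ x y : SpecialLinearGroup (Fin 2) F, Dr K x ∧ Dr K y ∧ x * y = g := by
  obtain ⟨x, y, hx, hy, hxy⟩ := prod_of_conic g hg (l + l⁻¹) (l + l⁻¹) l 0 (by
    rw [add_sub_cancel_left, mul_inv_cancel₀ hl]; ring)
  exact ⟨x, y, dr_of_tr h hx, dr_of_tr h hy, hxy⟩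

/-- a class of trace `α ≠ 0` which does not meet `K`, odd characteristic -/
theorem prod_odd [Finite F] (h2 : (2 : F) ≠ 0) (hm : m1 ∈ K) {α : F} (hα : α ≠ 0) (h : ∀ x ∈ K, tr x ≠ α)
    (g : SpecialLinearGroup (Fin 2) F) (hg : ¬ Sc g) :
    ∃ x y : SpecialLinearGroup (Fin 2) F, Dr K x ∧ Dr K y ∧ x * y = g := by
  classical
  by_cases h1 : tr g = -2
  · obtain ⟨x, y, hx, hy, hxy⟩ := prod_of_conic g hg α α (2 * α)⁻¹ (-(2 * α)⁻¹) (by
      rw [h1]; field_simp; ring)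
    exact ⟨x, y, dr_of_tr h hx, dr_of_tr h hy, hxy⟩
  by_cases h3 : tr g = 2
  · obtain ⟨x, y, hx, hy, hxy⟩ := prod_of_conic g hg α (-α) (2 * α)⁻¹ (2 * α)⁻¹ (by
      rw [h3]; field_simp; ring)
    exact ⟨x, y, dr_of_tr h hx, dr_of_neg hm h hy, hxy⟩
  have : Fintype F := Fintype.ofFinite F
  have hodd : Fintype.card F % 2 = 1 := FiniteField.odd_card_of_char_ne_two (by
    intro hc
    apply h2
    have := ringChar.Nat.cast_ringChar (R := F)
    rw [hc] at this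
    exact_mod_cast this)
  have e1 : tr g - 2 ≠ 0 := fun h => h3 (sub_eq_zero.1 h)
  have e2 : -(tr g + 2) ≠ 0 := fun h => h1 (by linear_combination -h)
  have d1 : degree (C (tr g - 2) * X ^ 2 + C 0 * X + C 0 : F[X]) = 2 := degree_quadratic e1
  have d2 : degree (C (-(tr g + 2)) * X ^ 2 + C (2 * α) * X + C (-1) : F[X]) = 2 := degree_quadratic e2
  obtain ⟨p, r, hpr⟩ := FiniteField.exists_root_sum_quadratic d1 d2 hodd
  simp only [eval_add, eval_mul, eval_C, eval_pow, eval_X] at hpr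
  obtain ⟨x, y, hx, hy, hxy⟩ := prod_of_conic g hg α α (p + r) (p - r) (by linear_combination hpr)
  exact ⟨x, y, dr_of_tr h hx, dr_of_tr h hy, hxy⟩

/-- two classes which do not meet `K`, characteristic two -/
theorem prod_two [Finite F] (h2 : (2 : F) = 0) {α β : F} (hαβ : α ≠ β) (hα : ∀ x ∈ K, tr x ≠ α) (hβ : ∀ x ∈ K, tr x ≠ β)
    (g : SpecialLinearGroup (Fin 2) F) (hg : ¬ Sc g) :
    ∃ x y : SpecialLinearGroup (Fin 2) F, Dr K x ∧ Dr K y ∧ x * y = g := by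
  by_cases h0 : tr g = 0
  · have e : α - β ≠ 0 := sub_ne_zero.2 hαβ
    obtain ⟨x, y, hx, hy, hxy⟩ := prod_of_conic g hg α β (α - β)⁻¹ (α - β)⁻¹ (by
      rw [h0]
      have e3 : (α - β)⁻¹ * (α - β) = 1 := inv_mul_cancel₀ e
      linear_combination e3 - (α - β)⁻¹ * (α - β)⁻¹ * h2)
    exact ⟨x, y, dr_of_tr hα hx, dr_of_tr hβ hy, hxy⟩
  · have hc : ringChar F = 2 := by
      have hd : ringChar F ∣ 2 := by
        rw [← ringChar.spec F 2]
        exact_mod_cast h2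
      rcases (Nat.dvd_prime Nat.prime_two).1 hd with h | h
      · exfalso
        have hs := (ringChar.spec F 1).2 (by rw [h])
        simp at hs
      · exact h
    obtain ⟨s, hs⟩ := FiniteField.isSquare_of_char_two hc (tr g)⁻¹
    obtain ⟨x, y, hx, hy, hxy⟩ := prod_of_conic g hg α α s s (by
      have e3 : (tr g)⁻¹ * tr g = 1 := inv_mul_cancel₀ h0
      linear_combination e3 - (tr g) * hs - s * s * h2)
    exact ⟨x, y, dr_of_tr hα hx, dr_of_tr hα hy, hxy⟩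

/-- upper unipotent elements -/
def up (t : F) : SpecialLinearGroup (Fin 2) F := ⟨!![1, t; 0, 1], by simp [Matrix.det_fin_two]⟩

/-- lower unipotent elements -/
def lo (t : F) : SpecialLinearGroup (Fin 2) F := ⟨!![1, 0; t, 1], by simp [Matrix.det_fin_two]⟩

theorem tr_up (t : F) : tr (up t) = 2 := by
  rw [tr_def]; show (1 : F) + 1 = 2; norm_num

theorem tr_lo (t : F) : tr (lo t) = 2 := by
  rw [tr_def]; show (1 : F) + 1 = 2; norm_num

theorem nsc_up {t : F} (ht : t ≠ 0) : ¬ Sc (up t) := fun h => ht h.1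

theorem nsc_lo {t : F} (ht : t ≠ 0) : ¬ Sc (lo t) := fun h => ht h.2.1

/-- no unipotent element in `K` -/
theorem prod_unip (hu : ∀ x ∈ K, tr x = 2 → Sc x) (h3 : ∃ t : F, t ≠ 0 ∧ t ≠ 1)
    (g : SpecialLinearGroup (Fin 2) F) (hg : ¬ Sc g) :
    ∃ x y : SpecialLinearGroup (Fin 2) F, Dr K x ∧ Dr K y ∧ x * y = g := by
  have hd : ∀ x : SpecialLinearGroup (Fin 2) F, ¬ Sc x → tr x = 2 → Dr K x := by
    intro x hx ht h hh
    have h1 := hu _ hh (by rw [tr_conj, ht])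
    rw [← cj_gl] at h1
    exact not_sc_cj hx _ h1
  have hcj : ∀ (P : GL (Fin 2) F) (x : SpecialLinearGroup (Fin 2) F), ¬ Sc x → tr x = 2 → Dr K (cj P x) := by
    intro P x hx ht
    exact hd _ (not_sc_cj hx P) (by rw [tr_cj, ht])
  by_cases h : tr g = 2
  · obtain ⟨t, ht0, ht1⟩ := h3
    have e1 : up t * up (1 - t) = (up 1 : SpecialLinearGroup (Fin 2) F) := by
      apply Subtype.ext
      show !![1, t; 0, 1] * !![1, 1 - t; 0, 1] = !![1, 1; 0, 1]
      ext i j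
      fin_cases i <;> fin_cases j <;> simp [Matrix.mul_apply, Fin.sum_univ_two]
    obtain ⟨P, hP⟩ := conj_of_tr hg (nsc_up (one_ne_zero (α := F))) (by rw [h, tr_up])
    refine ⟨cj P (up t), cj P (up (1 - t)), hcj P _ (nsc_up ht0) (tr_up t), hcj P _ (nsc_up (sub_ne_zero.2 (Ne.symm ht1))) (tr_up _), ?_⟩
    rw [← map_mul, e1, hP]
  · have hs : tr g - 2 ≠ 0 := sub_ne_zero.2 h
    have e0 : ((up 1 * lo (tr g - 2) : SpecialLinearGroup (Fin 2) F) : Matrix (Fin 2) (Fin 2) F) = !![tr g - 1, 1; tr g - 2, 1] := by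
      show !![1, 1; 0, 1] * !![1, 0; tr g - 2, 1] = !![tr g - 1, 1; tr g - 2, 1]
      ext i j
      fin_cases i <;> fin_cases j <;> simp [Matrix.mul_apply, Fin.sum_univ_two]
      ring
    have e1 : ¬ Sc (up 1 * lo (tr g - 2) : SpecialLinearGroup (Fin 2) F) := by
      intro hh
      have := hh.1
      rw [e0] at this
      simp at this
    have e2 : tr (up 1 * lo (tr g - 2) : SpecialLinearGroup (Fin 2) F) = tr g := by
      rw [tr_def, e0]
      simp
    obtain ⟨P, hP⟩ := conj_of_tr hg e1 e2.symm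
    refine ⟨cj P (up 1), cj P (lo (tr g - 2)), hcj P _ (nsc_up one_ne_zero) (tr_up _), hcj P _ (nsc_lo hs) (tr_lo _), ?_⟩
    rw [← map_mul, hP]

end Pool.Agent.Helper60.Psl
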