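import Pool.Agent.Helper60.Psl.B

/-!
# PSL_2(q), products of derangements: orbits on the projective line (helper60)
-/

set_option autoImplicit false

namespace Pool.Agent.Helper60.Psl

open Matrix Polynomial

variable {F : Type*} [Field F]

/-- the action on vectors -/
def ac (g : SpecialLinearGroup (Fin 2) F) (v : Fin 2 → F) : Fin 2 → F := (g : Matrix (Fin 2) (Fin 2) F) *ᵥ v

theorem ac_mul (g h : SpecialLinearGroup (Fin 2) F) (v : Fin 2 → F) : ac (g * h) v = ac g (ac h v) := by
  unfold ac
  rw [Matrix.mulVec_mulVec]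
  rfl

theorem ac_one (v : Fin 2 → F) : ac 1 v = v := by
  unfold ac
  show (1 : Matrix (Fin 2) (Fin 2) F) *ᵥ v = v
  simp

theorem ac_smul (g : SpecialLinearGroup (Fin 2) F) (c : F) (v : Fin 2 → F) : ac g (c • v) = c • ac g v := by
  unfold ac
  rw [Matrix.mulVec_smul]

theorem ac_0 (g : SpecialLinearGroup (Fin 2) F) (v : Fin 2 → F) : ac g v 0 = g 0 0 * v 0 + g 0 1 * v 1 := by
  unfold ac
  simp [Matrix.mulVec, dotProduct, Fin.sum_univ_two]

theorem ac_1 (g : SpecialLinearGroup (Fin 2) F) (v : Fin 2 → F) : ac g v 1 = g 1 0 * v 0 + g 1 1 * v 1 := by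
  unfold ac
  simp [Matrix.mulVec, dotProduct, Fin.sum_univ_two]

theorem ac_ne {g : SpecialLinearGroup (Fin 2) F} {v : Fin 2 → F} (hv : v ≠ 0) : ac g v ≠ 0 := by
  intro h
  apply hv
  have : ac g⁻¹ (ac g v) = v := by rw [← ac_mul, inv_mul_cancel, ac_one]
  rw [h] at this
  rw [← this]
  unfold ac
  simp

/-- the same orbit on lines -/
def Rl (K : Subgroup (SpecialLinearGroup (Fin 2) F)) (v w : Fin 2 → F) : Prop := ∃ k ∈ K, ∃ c : F, c ≠ 0 ∧ ac k v = c • w

variable {K : Subgroup (SpecialLinearGroup (Fin 2) F)}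

theorem Rl.symm {v w : Fin 2 → F} (h : Rl K v w) : Rl K w v := by
  obtain ⟨k, hk, c, hc, e⟩ := h
  refine ⟨k⁻¹, K.inv_mem hk, c⁻¹, inv_ne_zero hc, ?_⟩
  have h1 : ac k⁻¹ (ac k v) = v := by rw [← ac_mul, inv_mul_cancel, ac_one]
  rw [e, ac_smul] at h1
  rw [← h1, smul_smul, inv_mul_cancel₀ hc, one_smul]

theorem Rl.trans {u v w : Fin 2 → F} (h : Rl K u v) (h' : Rl K v w) : Rl K u w := by
  obtain ⟨k, hk, c, hc, e⟩ := h
  obtain ⟨k', hk', c', hc', e'⟩ := h'
  refine ⟨k' * k, K.mul_mem hk' hk, c * c', mul_ne_zero hc hc', ?_⟩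
  rw [ac_mul, e, ac_smul, e', smul_smul]

theorem Rl.mem {k : SpecialLinearGroup (Fin 2) F} (hk : k ∈ K) (v : Fin 2 → F) : Rl K v (ac k v) :=
  ⟨k, hk, 1, one_ne_zero, (one_smul _ _).symm⟩

theorem Rl.smul {c : F} (hc : c ≠ 0) (v : Fin 2 → F) : Rl K (c • v) v := ⟨1, K.one_mem, c, hc, ac_one _⟩

/-- diagonal elements -/
def dg (m : F) (hm : m ≠ 0) : SpecialLinearGroup (Fin 2) F := ⟨!![m, 0; 0, m⁻¹], by simp [Matrix.det_fin_two, hm]⟩

/-- the powers of `b` below `m` move every line -/
def Semi (b : SpecialLinearGroup (Fin 2) F) (m : ℕ) : Prop :=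
  ∀ v : Fin 2 → F, v ≠ 0 → ∀ j : ℕ, 0 < j → j < m → v 0 * ac (b ^ j) v 1 ≠ v 1 * ac (b ^ j) v 0

open Classical in
/-- the coordinate of a line -/
noncomputable def ky (v : Fin 2 → F) : Option F := if v 1 = 0 then none else some (v 0 / v 1)

theorem ky_eq {v w : Fin 2 → F} (h : ky v = ky w) : v 0 * w 1 = v 1 * w 0 := by
  unfold ky at h
  by_cases h1 : v 1 = 0
  · by_cases h2 : w 1 = 0
    · rw [h1, h2]; ring
    · rw [if_pos h1, if_neg h2] at h; exact absurd h (by simp)
  · by_cases h2 : w 1 = 0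
    · rw [if_neg h1, if_pos h2] at h; exact absurd h (by simp)
    · rw [if_neg h1, if_neg h2] at h
      have h3 : v 0 / v 1 = w 0 / w 1 := Option.some_injective _ h
      rw [div_eq_div_iff h1 h2] at h3
      rw [h3]; ring

theorem ky_inj {b : SpecialLinearGroup (Fin 2) F} {m : ℕ} (hs : Semi b m) {v : Fin 2 → F} (hv : v ≠ 0) {i j : ℕ} (hij : i < j)
    (hj : j < m) : ky (ac (b ^ i) v) ≠ ky (ac (b ^ j) v) := by
  intro h
  have h1 := ky_eq h
  have e : ac (b ^ j) v = ac (b ^ (j - i)) (ac (b ^ i) v) := by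
    rw [← ac_mul, ← pow_add]
    congr 2
    omega
  rw [e] at h1
  exact hs (ac (b ^ i) v) (ac_ne hv) (j - i) (by omega) (by omega) h1

theorem e1_ne : (![1, 0] : Fin 2 → F) ≠ 0 := fun h => one_ne_zero (congrFun h 0)

theorem e2_ne : (![0, 1] : Fin 2 → F) ≠ 0 := fun h => one_ne_zero (congrFun h 1)

/-- every line is equivalent to one of the two fixed lines of the torus -/
theorem cover [Finite F] (hd : ∀ (m : F) (hm : m ≠ 0), dg m hm ∈ K) {b : SpecialLinearGroup (Fin 2) F} (hb : b ∈ K) {m : ℕ}
    (hs : Semi b m) (hm : m = Nat.card F + 1 ∨ (Nat.card F % 2 = 1 ∧ m = Nat.card F / 2 + 1 ∧ 3 ≤ m)) {v : Fin 2 → F} (hv : v ≠ 0) :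
    Rl K v ![1, 0] ∨ Rl K v ![0, 1] := by
  classical
  have : Fintype F := Fintype.ofFinite F
  have hmemb : ∀ (j : ℕ) (w : Fin 2 → F), Rl K w (ac (b ^ j) w) := fun j w => Rl.mem (K.pow_mem hb j) w
  rcases hm with hm | ⟨hodd, hm, h3⟩
  · -- the powers of `b` reach all lines
    left
    have hinj : Function.Injective (fun j : Fin m => ky (ac (b ^ (j : ℕ)) v)) := by
      intro i j hij
      rcases lt_trichotomy (i : ℕ) (j : ℕ) with h | h | h
      · exact absurd hij (ky_inj hs hv h j.2)
      · exact Fin.ext h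
      · exact absurd hij.symm (ky_inj hs hv h i.2)
    have hcard : Fintype.card (Fin m) = Fintype.card (Option F) := by
      rw [Fintype.card_fin, Fintype.card_option, hm, Nat.card_eq_fintype_card]
    have hbij := (Fintype.bijective_iff_injective_and_card (fun j : Fin m => ky (ac (b ^ (j : ℕ)) v))).2 ⟨hinj, hcard⟩
    obtain ⟨j, hj'⟩ := hbij.2 none
    have hj : ky (ac (b ^ (j : ℕ)) v) = none := hj'
    have h1 : ac (b ^ (j : ℕ)) v 1 = 0 := by
      by_contra hne
      have : ky (ac (b ^ (j : ℕ)) v) = some (ac (b ^ (j : ℕ)) v 0 / ac (b ^ (j : ℕ)) v 1) := by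
        unfold ky; rw [if_neg hne]
      rw [this] at hj
      exact absurd hj (by simp)
    have h0 : ac (b ^ (j : ℕ)) v 0 ≠ 0 := by
      intro h0
      apply ac_ne (g := b ^ (j : ℕ)) hv
      funext i
      fin_cases i
      · exact h0
      · exact h1
    refine ⟨b ^ (j : ℕ), K.pow_mem hb _, ac (b ^ (j : ℕ)) v 0, h0, ?_⟩
    funext i
    fin_cases i
    · simp
    · simpa using h1
  · by_contra hcon
    push Not at hcon
    obtain ⟨hn1, hn2⟩ := hcon
    have h2c : ringChar F ≠ 2 := by
      intro hc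
      have := FiniteField.even_card_of_char_two hc
      rw [← Nat.card_eq_fintype_card] at this
      omega
    -- a line other than the two fixed ones
    have gen : ∀ w : Fin 2 → F, w 0 ≠ 0 → w 1 ≠ 0 → Rl K w ![w 0 / w 1, 1] := by
      intro w _ h1
      have e : w = w 1 • ![w 0 / w 1, 1] := by
        funext i
        fin_cases i
        · simp [mul_div_cancel₀, h1]
        · simp
      have := Rl.smul (K := K) h1 ![w 0 / w 1, 1]
      rwa [← e] at this
    have tor : ∀ t s : F, t ≠ 0 → s ≠ 0 → IsSquare (s / t) → Rl K ![t, 1] ![s, 1] := by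
      intro t s ht hs' hsq
      obtain ⟨μ, hμ⟩ := hsq
      have hμ0 : μ ≠ 0 := by
        rintro rfl
        have : s / t ≠ 0 := div_ne_zero hs' ht
        apply this; rw [hμ]; ring
      refine ⟨dg μ hμ0, hd μ hμ0, μ⁻¹, inv_ne_zero hμ0, ?_⟩
      have hst : s = μ * μ * t := by
        rw [← hμ]; field_simp
      funext i
      fin_cases i
      · show ac _ _ 0 = _
        rw [ac_0]
        show μ * t + 0 * 1 = μ⁻¹ * s
        rw [hst]; field_simp; ring
      · show ac _ _ 1 = _
        rw [ac_1]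
        show 0 * t + μ⁻¹ * 1 = μ⁻¹ * 1
        ring
    -- coordinates of the lines of the orbit of `v`
    set w : ℕ → Fin 2 → F := fun j => ac (b ^ j) v with hw
    have hw0 : ∀ j, w j 0 ≠ 0 := by
      intro j h0
      apply hn2
      have h1 : w j 1 ≠ 0 := by
        intro h1
        apply ac_ne (g := b ^ j) hv
        funext i
        fin_cases i
        · exact h0
        · exact h1
      refine ⟨b ^ j, K.pow_mem hb _, w j 1, h1, ?_⟩
      funext i
      fin_cases i
      · simpa using h0
      · simp [hw]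
    have hw1 : ∀ j, w j 1 ≠ 0 := by
      intro j h1
      apply hn1
      refine ⟨b ^ j, K.pow_mem hb _, w j 0, hw0 j, ?_⟩
      funext i
      fin_cases i
      · simp [hw]
      · simpa using h1
    have hq : 2 * (Fintype.card F / 2) + 1 = Fintype.card F := by
      rw [← Nat.card_eq_fintype_card]; omega
    have hmc : m = Fintype.card F / 2 + 1 := by rw [hm, Nat.card_eq_fintype_card]
    -- not all coordinates are in one square class
    have hcls : ∀ c : F, ∃ j : ℕ, j < m ∧ (w j 0 / w j 1) ^ (Fintype.card F / 2) ≠ c := by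
      intro c
      by_contra hall
      push Not at hall
      have hsub : (Finset.univ.image fun j : Fin m => w j 0 / w j 1) ⊆ (nthRoots (Fintype.card F / 2) c).toFinset := by
        intro x hx
        obtain ⟨j, -, rfl⟩ := Finset.mem_image.1 hx
        rw [Multiset.mem_toFinset, mem_nthRoots (by omega)]
        exact hall j j.2
      have hc1 := Finset.card_le_card hsub
      have hinj : Function.Injective (fun j : Fin m => w j 0 / w j 1) := by
        have hk : ∀ j : ℕ, ky (w j) = some (w j 0 / w j 1) := by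
          intro j; unfold ky; rw [if_neg (hw1 j)]
        intro i j hij
        rcases lt_trichotomy (i : ℕ) (j : ℕ) with h | h | h
        · exfalso
          apply ky_inj hs hv h j.2
          show ky (w i) = ky (w j)
          rw [hk, hk]; exact congrArg some hij
        · exact Fin.ext h
        · exfalso
          apply ky_inj hs hv h i.2
          show ky (w j) = ky (w i)
          rw [hk, hk]; exact congrArg some hij.symm
      rw [Finset.card_image_of_injective _ hinj, Finset.card_univ, Fintype.card_fin] at hc1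
      have hc2 : (nthRoots (Fintype.card F / 2) c).toFinset.card ≤ Fintype.card F / 2 :=
        (Multiset.toFinset_card_le _).trans (card_nthRoots _ _)
      omega
    have hall : ∀ t : F, t ≠ 0 → Rl K v ![t, 1] := by
      intro t ht
      have hd1 := FiniteField.pow_dichotomy h2c ht
      have : ∃ j : ℕ, (w j 0 / w j 1) ^ (Fintype.card F / 2) = t ^ (Fintype.card F / 2) := by
        rcases hd1 with h | h
        · obtain ⟨j, -, hj⟩ := hcls (-1)
          refine ⟨j, ?_⟩
          rw [h]
          rcases FiniteField.pow_dichotomy h2c (div_ne_zero (hw0 j) (hw1 j)) with h' | h'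
          · exact h'
          · exact absurd h' hj
        · obtain ⟨j, -, hj⟩ := hcls 1
          refine ⟨j, ?_⟩
          rw [h]
          rcases FiniteField.pow_dichotomy h2c (div_ne_zero (hw0 j) (hw1 j)) with h' | h'
          · exact absurd h' hj
          · exact h'
      obtain ⟨j, hj⟩ := this
      have hne := div_ne_zero (hw0 j) (hw1 j)
      have hsq : IsSquare (t / (w j 0 / w j 1)) := by
        rw [FiniteField.isSquare_iff h2c (div_ne_zero ht hne), div_pow, hj, div_self (pow_ne_zero _ ht)]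
      exact ((hmemb j v).trans (gen _ (hw0 j) (hw1 j))).trans (tor _ _ hne ht hsq)
    -- the orbit of the first fixed line
    have h0 : ky (ac (b ^ 0) ![1, 0]) = none := by
      rw [pow_zero, ac_one]; unfold ky; simp
    have h01 := ky_inj hs (e1_ne (F := F)) (show (0 : ℕ) < 1 by norm_num) (by omega)
    have h02 := ky_inj hs (e1_ne (F := F)) (show (0 : ℕ) < 2 by norm_num) (by omega)
    have h12 := ky_inj hs (e1_ne (F := F)) (show (1 : ℕ) < 2 by norm_num) (by omega)
    rw [h0] at h01 h02
    have fin : ∀ j : ℕ, ky (ac (b ^ j) ![1, 0]) ≠ none → ky (ac (b ^ j) ![1, 0]) ≠ some 0 → False := by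
      intro j hj1 hj2
      have g1 : ac (b ^ j) ![1, 0] 1 ≠ 0 := by
        intro h; apply hj1; unfold ky; rw [if_pos h]
      have g0 : ac (b ^ j) ![1, 0] 0 ≠ 0 := by
        intro h; apply hj2; unfold ky; rw [if_neg g1, h, zero_div]
      apply hn1
      exact ((hall _ (div_ne_zero g0 g1)).trans (gen _ g0 g1).symm).trans (hmemb j _).symm
    by_cases hz : ky (ac (b ^ 1) ![1, 0]) = some 0
    · exact fin 2 (Ne.symm h02) (fun h => h12 (hz.trans h.symm))
    · exact fin 1 (Ne.symm h01) hz

end Pool.Agent.Helper60.Psl
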