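import Pool.Agent.Helper60.Psl.C

/-!
# PSL_2(q), products of derangements: elements whose powers have no fixed line (helper60)
-/

set_option autoImplicit false

namespace Pool.Agent.Helper60.Psl

open Matrix Polynomial

variable {F : Type*} [Field F]

/-- the powers (below `m`) of every element of trace `t` have no fixed line -/
def Cx (t : F) : Prop := ∀ b : SpecialLinearGroup (Fin 2) F, tr b = t →
  ∃ m : ℕ, (m = Nat.card F + 1 ∨ (Nat.card F % 2 = 1 ∧ m = Nat.card F / 2 + 1 ∧ 3 ≤ m)) ∧ Semi b m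

/-- Cayley-Hamilton for traces of powers -/
theorem tr_pow (b : SpecialLinearGroup (Fin 2) F) (n : ℕ) : tr (b ^ (n + 2)) = tr b * tr (b ^ (n + 1)) - tr (b ^ n) := by
  have hd := det_eq b
  have e1 : ((b ^ (n + 2) : SpecialLinearGroup (Fin 2) F) : Matrix (Fin 2) (Fin 2) F) =
      ((b ^ n : SpecialLinearGroup (Fin 2) F) : Matrix (Fin 2) (Fin 2) F) * ((b : Matrix (Fin 2) (Fin 2) F) * (b : Matrix (Fin 2) (Fin 2) F)) := by
    rw [pow_add, pow_two]; rfl
  have e2 : ((b ^ (n + 1) : SpecialLinearGroup (Fin 2) F) : Matrix (Fin 2) (Fin 2) F) =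
      ((b ^ n : SpecialLinearGroup (Fin 2) F) : Matrix (Fin 2) (Fin 2) F) * (b : Matrix (Fin 2) (Fin 2) F) := by
    rw [pow_succ]; rfl
  have t1 := tr_def (b ^ (n + 2))
  have t2 := tr_def (b ^ (n + 1))
  have t3 := tr_def (b ^ n)
  have t4 := tr_def b
  rw [e1] at t1
  rw [e2] at t2
  simp only [Matrix.mul_apply, Fin.sum_univ_two] at t1 t2
  rw [t1, t2, t3, t4]
  linear_combination (-(b ^ n : SpecialLinearGroup (Fin 2) F) 0 0 - (b ^ n : SpecialLinearGroup (Fin 2) F) 1 1) * hd

/-- the eigenvalue of a fixed line -/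
theorem eig (B : SpecialLinearGroup (Fin 2) F) {v : Fin 2 → F} (hv : v ≠ 0) (h : v 0 * ac B v 1 = v 1 * ac B v 0) :
    ∃ c : F, c * c - tr B * c + 1 = 0 := by
  have hd := det_eq B
  rw [ac_0, ac_1] at h
  have ht := tr_def B
  by_cases h0 : v 0 = 0
  · have h1 : v 1 ≠ 0 := by
      intro h1
      apply hv
      funext i
      fin_cases i
      · exact h0
      · exact h1
    rw [h0] at h
    have h01 : B 0 1 = 0 := by
      have : v 1 * (B 0 1 * v 1) = 0 := by linear_combination -h
      rcases mul_eq_zero.1 this with h' | h'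
      · exact absurd h' h1
      · rcases mul_eq_zero.1 h' with h'' | h''
        · exact h''
        · exact absurd h'' h1
    refine ⟨B 1 1, ?_⟩
    rw [ht]
    linear_combination -hd - B 1 0 * h01
  · refine ⟨B 0 0 + B 0 1 * (v 1 / v 0), ?_⟩
    set s := v 1 / v 0 with hs
    have hv1 : v 1 = s * v 0 := by rw [hs, div_mul_cancel₀ _ h0]
    rw [hv1] at h
    have h2 : B 1 0 + B 1 1 * s = s * (B 0 0 + B 0 1 * s) := by
      have : v 0 * v 0 * (B 1 0 + B 1 1 * s - s * (B 0 0 + B 0 1 * s)) = 0 := by linear_combination h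
      rcases mul_eq_zero.1 this with h' | h'
      · exact absurd h' (mul_ne_zero h0 h0)
      · exact sub_eq_zero.1 h'
    rw [ht]
    linear_combination -hd - B 0 1 * h2

section ext

variable [Finite F] {z : AlgebraicClosure F} (hz : IsPrimitiveRoot z (Nat.card F + 1))

include hz

/-- `z + 1/z` lies in `F` -/
theorem exists_tr : ∃ t : F, algebraMap F (AlgebraicClosure F) t = z + z⁻¹ := by
  have : Fintype F := Fintype.ofFinite F
  have hq : Nat.card F = Fintype.card F := Nat.card_eq_fintype_card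
  have hz0 : z ≠ 0 := hz.ne_zero (by omega)
  have hzq : z ^ Fintype.card F = z⁻¹ := by
    have h1 := hz.pow_eq_one
    rw [pow_succ, hq] at h1
    exact eq_inv_of_mul_eq_one_left h1
  have h1 : (z + z⁻¹) ^ Fintype.card F = z + z⁻¹ := by
    have h2 := map_add (FiniteField.frobeniusAlgHom F (AlgebraicClosure F)) z z⁻¹
    simp only [FiniteField.coe_frobeniusAlgHom] at h2
    rw [h2, inv_pow, hzq, inv_inv, add_comm]
  have hmon : (X ^ Fintype.card F - X : F[X]).Monic := by
    apply monic_X_pow_sub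
    rw [degree_X]
    exact_mod_cast Fintype.one_lt_card
  have hprod := prod_multiset_X_sub_C_of_monic_of_roots_card_eq hmon (by
    rw [FiniteField.roots_X_pow_card_sub_X, FiniteField.X_pow_card_sub_X_natDegree_eq F Fintype.one_lt_card]
    rfl)
  rw [FiniteField.roots_X_pow_card_sub_X] at hprod
  have h3 : aeval (z + z⁻¹) (X ^ Fintype.card F - X : F[X]) = 0 := by
    simp [h1]
  rw [← hprod, map_multiset_prod, Multiset.map_map, Multiset.prod_eq_zero_iff] at h3
  obtain ⟨t, -, ht⟩ := Multiset.mem_map.1 h3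
  refine ⟨t, ?_⟩
  simp only [Function.comp_apply, map_sub, aeval_X, aeval_C] at ht
  exact (sub_eq_zero.1 ht).symm

theorem tr_pow_eq {b : SpecialLinearGroup (Fin 2) F} (hb : algebraMap F (AlgebraicClosure F) (tr b) = z + z⁻¹) (n : ℕ) :
    algebraMap F (AlgebraicClosure F) (tr (b ^ n)) = z ^ n + (z ^ n)⁻¹ := by
  have hz0 : z ≠ 0 := hz.ne_zero (by omega)
  induction' n using Nat.strong_induction_on with n ih
  match n with
  | 0 =>
    rw [pow_zero, pow_zero, tr_def]
    show algebraMap F (AlgebraicClosure F) (1 + 1) = 1 + 1⁻¹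
    rw [map_add, map_one, inv_one]
  | 1 => rw [pow_one, pow_one, hb]
  | n + 2 =>
    rw [tr_pow, map_sub, map_mul, ih (n + 1) (by omega), ih n (by omega), hb]
    field_simp
    ring

theorem cx_of {t : F} (ht : algebraMap F (AlgebraicClosure F) t = z + z⁻¹) (h4 : 4 ≤ Nat.card F) : Cx t := by
  have : Fintype F := Fintype.ofFinite F
  have hq : Nat.card F = Fintype.card F := Nat.card_eq_fintype_card
  have hz0 : z ≠ 0 := hz.ne_zero (by omega)
  intro b hb
  rw [← hb] at ht
  have key : ∀ v : Fin 2 → F, v ≠ 0 → ∀ j : ℕ, v 0 * ac (b ^ j) v 1 = v 1 * ac (b ^ j) v 0 → Nat.card F + 1 ∣ 2 * j := by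
    intro v hv j h
    obtain ⟨c, hc⟩ := eig (b ^ j) hv h
    have hc0 : c ≠ 0 := by
      rintro rfl
      simp at hc
    have h1 := congrArg (algebraMap F (AlgebraicClosure F)) hc
    rw [map_add, map_sub, map_mul, map_mul, tr_pow_eq hz ht, map_one, map_zero] at h1
    set C := algebraMap F (AlgebraicClosure F) c with hC
    have hzj : z ^ j ≠ 0 := pow_ne_zero _ hz0
    have h2 : (C - z ^ j) * (C - (z ^ j)⁻¹) = 0 := by
      have : z ^ j * (z ^ j)⁻¹ = 1 := mul_inv_cancel₀ hzj
      linear_combination h1 + this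
    have hcq : C ^ (Fintype.card F - 1) = 1 := by
      rw [hC, ← map_pow, FiniteField.pow_card_sub_one_eq_one c hc0, map_one]
    have h3 : z ^ (j * (Fintype.card F - 1)) = 1 := by
      rcases mul_eq_zero.1 h2 with h' | h'
      · rw [pow_mul, ← sub_eq_zero.1 h', hcq]
      · rw [sub_eq_zero.1 h', inv_pow] at hcq
        rw [pow_mul]
        exact inv_eq_one.1 hcq
    have h5 := (hz.pow_eq_one_iff_dvd _).1 h3
    have h6 : Nat.card F + 1 ∣ j * (Nat.card F + 1) := Dvd.intro_left _ rfl
    have h7 := Nat.dvd_sub h6 h5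
    have h8 : j * (Nat.card F + 1) - j * (Fintype.card F - 1) = 2 * j := by
      rw [← Nat.mul_sub, hq]
      have : Fintype.card F + 1 - (Fintype.card F - 1) = 2 := by omega
      rw [this, mul_comm]
    rwa [h8] at h7
  rcases Nat.mod_two_eq_zero_or_one (Nat.card F) with hev | hodd
  · refine ⟨Nat.card F + 1, Or.inl rfl, ?_⟩
    intro v hv j hj0 hjm h
    have h1 := key v hv j h
    have hcop : Nat.Coprime (Nat.card F + 1) 2 := by
      rw [Nat.coprime_two_right, Nat.odd_iff]
      omega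
    have h2 := hcop.dvd_of_dvd_mul_left h1
    have := Nat.le_of_dvd hj0 h2
    omega
  · refine ⟨Nat.card F / 2 + 1, Or.inr ⟨hodd, rfl, by omega⟩, ?_⟩
    intro v hv j hj0 hjm h
    have h1 := key v hv j h
    have := Nat.le_of_dvd (by omega) h1
    omega

end ext

theorem exists_root [Finite F] : ∃ z : AlgebraicClosure F, IsPrimitiveRoot z (Nat.card F + 1) := by
  have : Fintype F := Fintype.ofFinite F
  have h0 : ((Nat.card F + 1 : ℕ) : AlgebraicClosure F) ≠ 0 := by
    have h1 : ((Nat.card F : ℕ) : F) = 0 := by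
      rw [Nat.card_eq_fintype_card]
      exact Nat.cast_card_eq_zero F
    have h2 : ((Nat.card F : ℕ) : AlgebraicClosure F) = 0 := by
      have := congrArg (algebraMap F (AlgebraicClosure F)) h1
      rwa [map_natCast, map_zero] at this
    rw [Nat.cast_add, h2, Nat.cast_one, zero_add]
    exact one_ne_zero
  have : NeZero ((Nat.card F + 1 : ℕ) : AlgebraicClosure F) := ⟨h0⟩
  exact HasEnoughRootsOfUnity.exists_primitiveRoot (AlgebraicClosure F) (Nat.card F + 1)

theorem cx_odd [Finite F] (h4 : 4 ≤ Nat.card F) : ∃ t : F, t ≠ 0 ∧ Cx t := by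
  obtain ⟨z, hz⟩ := exists_root (F := F)
  obtain ⟨t, ht⟩ := exists_tr hz
  have hz0 : z ≠ 0 := hz.ne_zero (by omega)
  refine ⟨t, ?_, cx_of hz ht h4⟩
  rintro rfl
  rw [map_zero] at ht
  have h1 : z ^ 4 = 1 := by
    have h2 : z * z = -1 := by
      have h3 : z * (z + z⁻¹) = z * z + 1 := by rw [mul_add, mul_inv_cancel₀ hz0]
      rw [← ht] at h3
      linear_combination -h3
    calc z ^ 4 = (z * z) * (z * z) := by ring
      _ = 1 := by rw [h2]; ring
  have := Nat.le_of_dvd (by norm_num) ((hz.pow_eq_one_iff_dvd _).1 h1)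
  omega

theorem cx_two [Finite F] (h4 : 4 ≤ Nat.card F) (h2 : (2 : F) = 0) : ∃ s t : F, s ≠ t ∧ Cx s ∧ Cx t := by
  have : Fintype F := Fintype.ofFinite F
  have hc : ringChar F = 2 := by
    have hdv : ringChar F ∣ 2 := by
      rw [← ringChar.spec F 2]
      exact_mod_cast h2
    rcases (Nat.dvd_prime Nat.prime_two).1 hdv with h | h
    · exfalso
      have hs := (ringChar.spec F 1).2 (by rw [h])
      simp at hs
    · exact h
  have hev := FiniteField.even_card_of_char_two hc
  rw [← Nat.card_eq_fintype_card] at hev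
  obtain ⟨z, hz⟩ := exists_root (F := F)
  have hz' : IsPrimitiveRoot (z ^ 2) (Nat.card F + 1) := by
    apply hz.pow_of_coprime
    rw [Nat.coprime_two_left, Nat.odd_iff]
    omega
  obtain ⟨s, hs⟩ := exists_tr hz
  obtain ⟨t, ht⟩ := exists_tr hz'
  have hz0 : z ≠ 0 := hz.ne_zero (by omega)
  refine ⟨s, t, ?_, cx_of hz hs h4, cx_of hz' ht h4⟩
  rintro rfl
  rw [hs] at ht
  have h1 : (z ^ 3 - 1) * (z ^ 1 - 1) = 0 := by
    field_simp at ht
    linear_combination -ht
  rcases mul_eq_zero.1 h1 with h | h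
  · have := Nat.le_of_dvd (by norm_num) ((hz.pow_eq_one_iff_dvd _).1 (sub_eq_zero.1 h))
    omega
  · have := Nat.le_of_dvd (by norm_num) ((hz.pow_eq_one_iff_dvd _).1 (sub_eq_zero.1 h))
    omega

end Pool.Agent.Helper60.Psl
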