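import Pool.Agent.Helper60.Psl.B

/-!
# PSL_2(q), products of derangements: from SL_2 to a transitive action of PSL_2 (helper26)
-/

set_option autoImplicit false

namespace Pool.Agent.Helper60.Psl

open Matrix

variable {F : Type*} [Field F]

/-- scalar elements are central -/
theorem Sc.center {x : SpecialLinearGroup (Fin 2) F} (h : Sc x) :
    x ∈ Subgroup.center (SpecialLinearGroup (Fin 2) F) := by
  rw [Subgroup.mem_center_iff]
  intro y
  have h1 := h.cj (gl y)
  rw [cj_gl] at h1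
  calc y * x = (y * x * y⁻¹) * y := by group
    _ = x * y := by rw [h1]

theorem sc_m1' : Sc (m1 : SpecialLinearGroup (Fin 2) F) := ⟨rfl, rfl, rfl⟩

/-- the projection from `SL_2(F)` to a group isomorphic to `PSL_2(F)` -/
def pr {G : Type*} [Group G] (e : G ≃* Matrix.ProjectiveSpecialLinearGroup (Fin 2) F) :
    SpecialLinearGroup (Fin 2) F →* G :=
  (e.symm : Matrix.ProjectiveSpecialLinearGroup (Fin 2) F →* G).comp
    (QuotientGroup.mk' (Subgroup.center (SpecialLinearGroup (Fin 2) F)))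

theorem pr_surj {G : Type*} [Group G] (e : G ≃* Matrix.ProjectiveSpecialLinearGroup (Fin 2) F) :
    Function.Surjective (pr e) := by
  intro g
  obtain ⟨x, hx⟩ := QuotientGroup.mk'_surjective (Subgroup.center (SpecialLinearGroup (Fin 2) F)) (e g)
  refine ⟨x, ?_⟩
  show e.symm (QuotientGroup.mk' (Subgroup.center (SpecialLinearGroup (Fin 2) F)) x) = g
  rw [hx]
  exact e.symm_apply_apply g

theorem pr_sc {G : Type*} [Group G] (e : G ≃* Matrix.ProjectiveSpecialLinearGroup (Fin 2) F)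
    {x : SpecialLinearGroup (Fin 2) F} (h : Sc x) : pr e x = 1 := by
  show e.symm (QuotientGroup.mk' (Subgroup.center (SpecialLinearGroup (Fin 2) F)) x) = 1
  have h1 : QuotientGroup.mk' (Subgroup.center (SpecialLinearGroup (Fin 2) F)) x = 1 :=
    (QuotientGroup.eq_one_iff x).2 h.center
  rw [h1]
  exact map_one e.symm

/-- the last step: transitive actions of a group isomorphic to `PSL_2(F)` -/
theorem fin {F G W : Type*} [Field F] [Group G]
    (e : G ≃* Matrix.ProjectiveSpecialLinearGroup (Fin 2) F) [MulAction G W] [MulAction.IsPretransitive G W] [Nontrivial W]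
    (main : ∀ K : Subgroup (SpecialLinearGroup (Fin 2) F), K ≠ ⊤ → m1 ∈ K → ∀ g, ¬ Sc g →
      ∃ x y : SpecialLinearGroup (Fin 2) F, Dr K x ∧ Dr K y ∧ x * y = g) (g : G) :
    ∃ x y : G, (∀ w : W, x • w ≠ w) ∧ (∀ w : W, y • w ≠ w) ∧ x * y = g := by
  obtain ⟨w0, w1, hw⟩ := exists_pair_ne W
  let K : Subgroup (SpecialLinearGroup (Fin 2) F) := (MulAction.stabilizer G w0).comap (pr e)
  have hK : ∀ x, x ∈ K ↔ pr e x • w0 = w0 := fun x => by
    show pr e x ∈ MulAction.stabilizer G w0 ↔ _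
    exact MulAction.mem_stabilizer_iff
  have hm : m1 ∈ K := by
    rw [hK, pr_sc e sc_m1', one_smul]
  have htop : K ≠ ⊤ := by
    intro ht
    obtain ⟨h, hh⟩ := MulAction.exists_smul_eq G w0 w1
    obtain ⟨h', rfl⟩ := pr_surj e h
    have h1 : h' ∈ K := by rw [ht]; exact Subgroup.mem_top _
    rw [hK, hh] at h1
    exact hw h1.symm
  have hd : ∀ x : SpecialLinearGroup (Fin 2) F, Dr K x → ∀ w : W, pr e x • w ≠ w := by
    intro x hx w hxw
    obtain ⟨h, hh⟩ := MulAction.exists_smul_eq G w0 w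
    obtain ⟨h', rfl⟩ := pr_surj e h
    apply hx h'⁻¹
    rw [hK, inv_inv, map_mul, map_mul, map_inv, mul_smul, mul_smul, hh, hxw, ← hh, inv_smul_smul]
  obtain ⟨g', rfl⟩ := pr_surj e g
  by_cases hs : Sc g'
  · obtain ⟨x, y, hx, _, _⟩ := main K htop hm (up 1) (nsc_up one_ne_zero)
    refine ⟨pr e x, (pr e x)⁻¹, hd x hx, ?_, ?_⟩
    · intro w hw'
      apply hd x hx w
      calc pr e x • w = pr e x • ((pr e x)⁻¹ • w) := by rw [hw']
        _ = w := smul_inv_smul _ _
    · rw [mul_inv_cancel, pr_sc e hs]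
  · obtain ⟨x, y, hx, hy, hxy⟩ := main K htop hm g' hs
    exact ⟨pr e x, pr e y, hd x hx, hd y hy, by rw [← map_mul, hxy]⟩

end Pool.Agent.Helper60.Psl
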