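import Mathlib

/-!
# Products of derangements: from a group to a transitive action of its central quotient (helper60, after helper26)
-/

set_option autoImplicit false

namespace Pool.Agent.Helper60.Psl

/-- no conjugate of `x` lies in `K` -/
def Der {S : Type*} [Group S] (K : Subgroup S) (x : S) : Prop := ∀ h : S, h * x * h⁻¹ ∉ K

/-- the projection from `S` to a group isomorphic to `S` modulo its centre -/
def prc {S G : Type*} [Group S] [Group G] (e : G ≃* S ⧸ Subgroup.center S) : S →* G :=
  (e.symm : S ⧸ Subgroup.center S →* G).comp (QuotientGroup.mk' (Subgroup.center S))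

theorem prc_surj {S G : Type*} [Group S] [Group G] (e : G ≃* S ⧸ Subgroup.center S) :
    Function.Surjective (prc e) := by
  intro g
  obtain ⟨x, hx⟩ := QuotientGroup.mk'_surjective (Subgroup.center S) (e g)
  refine ⟨x, ?_⟩
  show e.symm (QuotientGroup.mk' (Subgroup.center S) x) = g
  rw [hx]
  exact e.symm_apply_apply g

theorem prc_center {S G : Type*} [Group S] [Group G] (e : G ≃* S ⧸ Subgroup.center S)
    {x : S} (h : x ∈ Subgroup.center S) : prc e x = 1 := by
  show e.symm (QuotientGroup.mk' (Subgroup.center S) x) = 1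
  have h1 : QuotientGroup.mk' (Subgroup.center S) x = 1 := (QuotientGroup.eq_one_iff x).2 h
  rw [h1]
  exact map_one e.symm

/-- **reduction**: if in `S` every noncentral element is a product of two elements which have no
conjugate in a given proper subgroup (containing the centre), then in every transitive action of
`S / Z(S)` on at least two points every element is a product of two derangements -/
theorem fin_gen {S G W : Type*} [Group S] [Group G]
    (e : G ≃* S ⧸ Subgroup.center S) [MulAction G W] [MulAction.IsPretransitive G W] [Nontrivial W]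
    (hne : ∃ g : S, g ∉ Subgroup.center S)
    (main : ∀ K : Subgroup S, K ≠ ⊤ → Subgroup.center S ≤ K → ∀ g, g ∉ Subgroup.center S →
      ∃ x y : S, Der K x ∧ Der K y ∧ x * y = g) (g : G) :
    ∃ x y : G, (∀ w : W, x • w ≠ w) ∧ (∀ w : W, y • w ≠ w) ∧ x * y = g := by
  obtain ⟨w0, w1, hw⟩ := exists_pair_ne W
  let K : Subgroup S := (MulAction.stabilizer G w0).comap (prc e)
  have hK : ∀ x, x ∈ K ↔ prc e x • w0 = w0 := fun x => by
    show prc e x ∈ MulAction.stabilizer G w0 ↔ _
    exact MulAction.mem_stabilizer_iff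
  have hm : Subgroup.center S ≤ K := by
    intro z hz
    rw [hK, prc_center e hz, one_smul]
  have htop : K ≠ ⊤ := by
    intro ht
    obtain ⟨h, hh⟩ := MulAction.exists_smul_eq G w0 w1
    obtain ⟨h', rfl⟩ := prc_surj e h
    have h1 : h' ∈ K := by rw [ht]; exact Subgroup.mem_top _
    rw [hK, hh] at h1
    exact hw h1.symm
  have hd : ∀ x : S, Der K x → ∀ w : W, prc e x • w ≠ w := by
    intro x hx w hxw
    obtain ⟨h, hh⟩ := MulAction.exists_smul_eq G w0 w
    obtain ⟨h', rfl⟩ := prc_surj e h
    apply hx h'⁻¹
    rw [hK, inv_inv, map_mul, map_mul, map_inv, mul_smul, mul_smul, hh, hxw, ← hh, inv_smul_smul]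
  obtain ⟨g', rfl⟩ := prc_surj e g
  by_cases hs : g' ∈ Subgroup.center S
  · obtain ⟨g0, hg0⟩ := hne
    obtain ⟨x, y, hx, _, _⟩ := main K htop hm g0 hg0
    refine ⟨prc e x, (prc e x)⁻¹, hd x hx, ?_, ?_⟩
    · intro w hw'
      apply hd x hx w
      calc prc e x • w = prc e x • ((prc e x)⁻¹ • w) := by rw [hw']
        _ = w := smul_inv_smul _ _
    · rw [mul_inv_cancel, prc_center e hs]
  · obtain ⟨x, y, hx, hy, hxy⟩ := main K htop hm g' hs
    exact ⟨prc e x, prc e y, hd x hx, hd y hy, by rw [← map_mul, hxy]⟩

end Pool.Agent.Helper60.Psl
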