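import Pool.Agent.Helper60.Psl.U
import Pool.Agent.Helper60.Psl.D1
import Pool.Agent.Helper60.Psl.F

/-!
# PSL_2(q), products of derangements: the main theorem (helper60)
-/

set_option autoImplicit false

namespace Pool.Agent.Helper60.Psl

open Matrix Polynomial

variable {F : Type*} [Field F]

variable {K : Subgroup (SpecialLinearGroup (Fin 2) F)}

theorem dg_pow (l : F) (hl : l ≠ 0) (n : ℕ) : dg l hl ^ n = dg (l ^ n) (pow_ne_zero n hl) := by
  induction n with
  | zero =>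
    rw [pow_zero]
    apply Subtype.ext
    show (1 : Matrix (Fin 2) (Fin 2) F) = !![l ^ 0, 0; 0, (l ^ 0)⁻¹]
    ext i j
    fin_cases i <;> fin_cases j <;> simp
  | succ n ih =>
    rw [pow_succ, ih]
    apply Subtype.ext
    show !![l ^ n, 0; 0, (l ^ n)⁻¹] * !![l, 0; 0, l⁻¹] = !![l ^ (n + 1), 0; 0, (l ^ (n + 1))⁻¹]
    ext i j
    fin_cases i <;> fin_cases j <;> simp [Matrix.mul_apply, Fin.sum_univ_two, pow_succ]
    ring

/-- a generator of the multiplicative group -/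
theorem exists_gen [Finite F] : ∃ l : F, l ≠ 0 ∧ ∀ m : F, m ≠ 0 → ∃ n : ℕ, l ^ n = m := by
  obtain ⟨l, hl⟩ := IsCyclic.exists_monoid_generator (α := Fˣ)
  refine ⟨(l : F), l.ne_zero, ?_⟩
  intro m hm
  obtain ⟨n, hn⟩ := (Submonoid.mem_powers_iff _ _).1 (hl (Units.mk0 m hm))
  refine ⟨n, ?_⟩
  have := congrArg (fun u : Fˣ => (u : F)) hn
  simpa using this

theorem gen_sq [Finite F] (h4 : 4 ≤ Nat.card F) {l : F} (hl : ∀ m : F, m ≠ 0 → ∃ n : ℕ, l ^ n = m) : l * l ≠ 1 := by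
  classical
  intro h
  have : Fintype F := Fintype.ofFinite F
  have hsub : (Finset.univ : Finset F) ⊆ {0, 1, l} := by
    intro m _
    by_cases hm : m = 0
    · simp [hm]
    · obtain ⟨n, hn⟩ := hl m hm
      have hl2 : l ^ 2 = 1 := by rw [pow_two, h]
      rcases Nat.even_or_odd' n with ⟨k, rfl | rfl⟩
      · rw [pow_mul, hl2, one_pow] at hn
        simp [← hn]
      · rw [pow_succ, pow_mul, hl2, one_pow, one_mul] at hn
        simp [← hn]
  have h1 := Finset.card_le_card hsub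
  have h2 : ({0, 1, l} : Finset F).card ≤ 3 := Finset.card_le_three
  rw [Finset.card_univ, ← Nat.card_eq_fintype_card] at h1
  omega

/-- a proper subgroup with a generator of the split torus and a unipotent element contains no element without fixed line -/
theorem no_cx [Finite F] (h4 : 4 ≤ Nat.card F) (hK : K ≠ ⊤) {l : F} (hl0 : l ≠ 0) (hl : ∀ m : F, m ≠ 0 → ∃ n : ℕ, l ^ n = m)
    {a : SpecialLinearGroup (Fin 2) F} (ha : a ∈ K) (hat : tr a = l + l⁻¹) {u : SpecialLinearGroup (Fin 2) F} (hu : u ∈ K)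
    (hut : tr u = 2) (hus : ¬ Sc u) {t : F} (ht : Cx t) : ∀ x ∈ K, tr x ≠ t := by
  intro b hb hbt
  have hl2 := gen_sq h4 hl
  have has : ¬ Sc a := by
    intro h
    obtain ⟨h1, h2, h3⟩ := h
    have hd := det_eq a
    rw [tr_def] at hat
    rw [h1, ← h3] at hd
    rw [← h3] at hat
    set s := a 0 0 with hs
    have e1 : (l - s) * (l - s) = 0 := by
      have e2 : l * (l + l⁻¹) = l * l + 1 := by rw [mul_add, mul_inv_cancel₀ hl0]
      rw [← hat] at e2
      linear_combination -e2 + hd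
    have e3 : l = s := by
      rcases mul_eq_zero.1 e1 with h | h <;> exact sub_eq_zero.1 h
    apply hl2
    rw [e3]
    linear_combination hd
  have hds : ¬ Sc (dg l hl0) := by
    intro h
    have h3 : l = l⁻¹ := h.2.2
    apply hl2
    nth_rewrite 2 [h3]
    exact mul_inv_cancel₀ hl0
  obtain ⟨P, hP⟩ := conj_of_tr has hds (by
    rw [hat, tr_def]
    rfl)
  apply hK
  apply top_of_comap (P := P)
  have hPP : ∀ x : SpecialLinearGroup (Fin 2) F, x ∈ K → cj P⁻¹ x ∈ K.comap (cj P) := by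
    intro x hx
    rw [Subgroup.mem_comap, cj_cj]
    exact hx
  have hd : ∀ (m : F) (hm : m ≠ 0), dg m hm ∈ K.comap (cj P) := by
    intro m hm
    obtain ⟨n, hn⟩ := hl m hm
    have e : dg m hm = dg l hl0 ^ n := by
      rw [dg_pow]
      apply Subtype.ext
      show !![m, 0; 0, m⁻¹] = !![l ^ n, 0; 0, (l ^ n)⁻¹]
      rw [hn]
    rw [e]
    apply Subgroup.pow_mem
    rw [Subgroup.mem_comap, hP]
    exact ha
  obtain ⟨m, hm, hs⟩ := ht (cj P⁻¹ b) (by rw [tr_cj, hbt])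
  exact step hd (hPP u hu) (by rw [tr_cj, hut]) (not_sc_cj hus _) (hPP b hb) hs hm

/-- the main theorem in `SL_2(F)` -/
theorem main [Finite F] (h4 : 4 ≤ Nat.card F) (K : Subgroup (SpecialLinearGroup (Fin 2) F)) (hK : K ≠ ⊤) (hm : m1 ∈ K)
    (g : SpecialLinearGroup (Fin 2) F) (hg : ¬ Sc g) : ∃ x y : SpecialLinearGroup (Fin 2) F, Dr K x ∧ Dr K y ∧ x * y = g := by
  obtain ⟨l, hl0, hl⟩ := exists_gen (F := F)
  by_cases hsplit : ∀ x ∈ K, tr x ≠ l + l⁻¹
  · exact prod_split hl0 hsplit g hg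
  by_cases hunip : ∀ x ∈ K, tr x = 2 → Sc x
  · refine prod_unip hunip ⟨l, hl0, ?_⟩ g hg
    rintro rfl
    exact gen_sq h4 hl (one_mul 1)
  push Not at hsplit hunip
  obtain ⟨a, ha, hat⟩ := hsplit
  obtain ⟨u, hu, hut, hus⟩ := hunip
  by_cases h2 : (2 : F) = 0
  · obtain ⟨s, t, hst, hs, ht⟩ := cx_two h4 h2
    exact prod_two h2 hst (no_cx h4 hK hl0 hl ha hat hu hut hus hs) (no_cx h4 hK hl0 hl ha hat hu hut hus ht) g hg
  · obtain ⟨t, ht0, ht⟩ := cx_odd (F := F) h4
    exact prod_odd h2 hm ht0 (no_cx h4 hK hl0 hl ha hat hu hut hus ht) g hg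

end Pool.Agent.Helper60.Psl
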