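import Pool.Agent.Helper60.Psl.C

/-!
# PSL_2(q), products of derangements: subgroups containing a torus, a unipotent element and an element without fixed line (helper60)
-/

set_option autoImplicit false

namespace Pool.Agent.Helper60.Psl

open Matrix Polynomial

variable {F : Type*} [Field F]

variable {K : Subgroup (SpecialLinearGroup (Fin 2) F)}

theorem up_add (s t : F) : up (s + t) = up s * up t := by
  apply Subtype.ext
  show !![1, s + t; 0, 1] = !![1, s; 0, 1] * !![1, t; 0, 1]
  ext i j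
  fin_cases i <;> fin_cases j <;> simp [Matrix.mul_apply, Fin.sum_univ_two]
  ring

theorem up_zero : up (0 : F) = 1 := by
  apply Subtype.ext
  show !![1, (0 : F); 0, 1] = 1
  ext i j
  fin_cases i <;> fin_cases j <;> simp

theorem up_neg (t : F) : up (-t) = (up t)⁻¹ := by
  apply eq_inv_of_mul_eq_one_left
  rw [← up_add, neg_add_cancel, up_zero]

theorem dg_up (m : F) (hm : m ≠ 0) (t : F) : dg m hm * up t * dg m⁻¹ (inv_ne_zero hm) = up (m * m * t) := by
  apply Subtype.ext
  show !![m, 0; 0, m⁻¹] * !![1, t; 0, 1] * !![m⁻¹, 0; 0, m⁻¹⁻¹] = !![1, m * m * t; 0, 1]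
  ext i j
  fin_cases i <;> fin_cases j <;> simp [Matrix.mul_apply, Fin.sum_univ_two, hm]
  ring

/-- the torus and one unipotent element give the unipotent group -/
theorem up_all [Finite F] (hd : ∀ (m : F) (hm : m ≠ 0), dg m hm ∈ K) {x0 : F} (h0 : x0 ≠ 0) (hx : up x0 ∈ K) (t : F) : up t ∈ K := by
  have hsq : ∀ m : F, up (m * m * x0) ∈ K := by
    intro m
    by_cases hm : m = 0
    · rw [hm]
      simp only [zero_mul]
      rw [up_zero]
      exact K.one_mem
    · rw [← dg_up m hm]
      exact K.mul_mem (K.mul_mem (hd _ _) hx) (hd _ _)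
  by_cases h2 : (2 : F) = 0
  · have : Fintype F := Fintype.ofFinite F
    have hc : ringChar F = 2 := by
      have hdv : ringChar F ∣ 2 := by
        rw [← ringChar.spec F 2]
        exact_mod_cast h2
      rcases (Nat.dvd_prime Nat.prime_two).1 hdv with h | h
      · exfalso
        have hs := (ringChar.spec F 1).2 (by rw [h])
        simp at hs
      · exact h
    obtain ⟨s, hs⟩ := FiniteField.isSquare_of_char_two hc (t / x0)
    have : s * s * x0 = t := by rw [← hs]; field_simp
    rw [← this]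
    exact hsq s
  · have e : t = ((t / x0 + 1) / 2) * ((t / x0 + 1) / 2) * x0 + -(((t / x0 - 1) / 2) * ((t / x0 - 1) / 2) * x0) := by
      field_simp
      ring
    rw [e, up_add, up_neg]
    exact K.mul_mem (hsq _) (K.inv_mem (hsq _))

/-- the Weyl element -/
def we (c : F) (hc : c ≠ 0) : SpecialLinearGroup (Fin 2) F := ⟨!![0, -c⁻¹; c, 0], by simp [Matrix.det_fin_two, hc]⟩

theorem we_we (c : F) (hc : c ≠ 0) : we (-c) (neg_ne_zero.2 hc) = (we c hc)⁻¹ := by
  apply eq_inv_of_mul_eq_one_left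
  apply Subtype.ext
  show !![0, -(-c)⁻¹; -c, 0] * !![0, -c⁻¹; c, 0] = (1 : Matrix (Fin 2) (Fin 2) F)
  rw [inv_neg, neg_neg]
  ext i j
  fin_cases i <;> fin_cases j <;> simp [Matrix.mul_apply, Fin.sum_univ_two, hc]

theorem we_lo (c : F) (hc : c ≠ 0) (t : F) : lo t = we c hc * up (-(t / (c * c))) * we (-c) (neg_ne_zero.2 hc) := by
  apply Subtype.ext
  show !![1, 0; t, 1] = !![0, -c⁻¹; c, 0] * !![1, -(t / (c * c)); 0, 1] * !![0, -(-c)⁻¹; -c, 0]
  rw [inv_neg, neg_neg]
  ext i j
  fin_cases i <;> fin_cases j <;> simp [Matrix.mul_apply, Fin.sum_univ_two, hc]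
  field_simp

/-- the upper unipotent group and an element which does not fix the first line generate -/
theorem gen_top (hu : ∀ t : F, up t ∈ K) {b : SpecialLinearGroup (Fin 2) F} (hb : b ∈ K) (hc : b 1 0 ≠ 0) : K = ⊤ := by
  have hdet := det_eq b
  have hw : we (b 1 0) hc ∈ K := by
    have e : we (b 1 0) hc = up (-(b 0 0 / b 1 0)) * b * up (-(b 1 1 / b 1 0)) := by
      apply Subtype.ext
      have e3 : (b : Matrix (Fin 2) (Fin 2) F) = !![b 0 0, b 0 1; b 1 0, b 1 1] := Matrix.eta_fin_two _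
      show !![0, -(b 1 0)⁻¹; b 1 0, 0] = !![1, -(b 0 0 / b 1 0); 0, 1] * (b : Matrix (Fin 2) (Fin 2) F) * !![1, -(b 1 1 / b 1 0); 0, 1]
      generalize b 0 0 = p at *
      generalize b 0 1 = r at *
      generalize b 1 1 = s at *
      generalize b 1 0 = c at *
      rw [e3]
      ext i j
      fin_cases i <;> fin_cases j
      · simp [Matrix.mul_apply, Fin.sum_univ_two]
        field_simp
        ring
      · simp [Matrix.mul_apply, Fin.sum_univ_two]
        field_simp
        linear_combination hdet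
      · simp [Matrix.mul_apply, Fin.sum_univ_two]
      · simp [Matrix.mul_apply, Fin.sum_univ_two]
        field_simp
        ring
    rw [e]
    exact K.mul_mem (K.mul_mem (hu _) hb) (hu _)
  have hl : ∀ t : F, lo t ∈ K := by
    intro t
    rw [we_lo (b 1 0) hc t, we_we (b 1 0) hc]
    exact K.mul_mem (K.mul_mem hw (hu _)) (K.inv_mem hw)
  have key : ∀ g : SpecialLinearGroup (Fin 2) F, g 1 0 ≠ 0 → g ∈ K := by
    intro g hg
    have hdg := det_eq g
    have e : g = up ((g 0 0 - 1) / g 1 0) * lo (g 1 0) * up ((g 1 1 - 1) / g 1 0) := by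
      apply Subtype.ext
      have e3 : (g : Matrix (Fin 2) (Fin 2) F) = !![g 0 0, g 0 1; g 1 0, g 1 1] := Matrix.eta_fin_two _
      show (g : Matrix (Fin 2) (Fin 2) F) = !![1, (g 0 0 - 1) / g 1 0; 0, 1] * !![1, 0; g 1 0, 1] * !![1, (g 1 1 - 1) / g 1 0; 0, 1]
      conv_lhs => rw [e3]
      ext i j
      fin_cases i <;> fin_cases j
      · simp [Matrix.mul_apply, Fin.sum_univ_two, hg]
      · simp [Matrix.mul_apply, Fin.sum_univ_two]
        field_simp
        linear_combination -hdg
      · simp [Matrix.mul_apply, Fin.sum_univ_two]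
      · simp [Matrix.mul_apply, Fin.sum_univ_two]
        field_simp
        ring
    rw [e]
    exact K.mul_mem (K.mul_mem (hu _) (hl _)) (hu _)
  rw [eq_top_iff]
  intro g _
  by_cases hg : g 1 0 = 0
  · have hdg := det_eq g
    have h11 : g 1 1 ≠ 0 := by
      intro h
      rw [hg, h] at hdg
      simp at hdg
    have h1 : ((g * lo 1 : SpecialLinearGroup (Fin 2) F) : Matrix (Fin 2) (Fin 2) F) 1 0 ≠ 0 := by
      have e : ((g * lo 1 : SpecialLinearGroup (Fin 2) F) : Matrix (Fin 2) (Fin 2) F) 1 0 = g 1 0 + g 1 1 := by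
        show ((g : Matrix (Fin 2) (Fin 2) F) * (!![1, 0; 1, 1] : Matrix (Fin 2) (Fin 2) F)) 1 0 = _
        simp [Matrix.mul_apply, Fin.sum_univ_two]
      rw [e, hg, zero_add]
      exact h11
    have h2 := key _ h1
    have h3 := K.mul_mem h2 (K.inv_mem (hl 1))
    rwa [mul_inv_cancel_right] at h3
  · exact key g hg

/-- the exchange of the two coordinates -/
def sw : GL (Fin 2) F := Matrix.GeneralLinearGroup.mkOfDetNeZero !![0, 1; 1, 0] (by simp [Matrix.det_fin_two])

theorem sw_sw : (sw : GL (Fin 2) F)⁻¹ = sw := by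
  rw [inv_eq_iff_mul_eq_one]
  apply Units.ext
  show !![0, 1; 1, 0] * !![0, 1; 1, 0] = (1 : Matrix (Fin 2) (Fin 2) F)
  ext i j
  fin_cases i <;> fin_cases j <;> simp [Matrix.mul_apply, Fin.sum_univ_two]

theorem cj_sw (g : SpecialLinearGroup (Fin 2) F) : (cj sw g : Matrix (Fin 2) (Fin 2) F) = !![g 1 1, g 1 0; g 0 1, g 0 0] := by
  rw [cj_val, sw_sw]
  have e3 : (g : Matrix (Fin 2) (Fin 2) F) = !![g 0 0, g 0 1; g 1 0, g 1 1] := Matrix.eta_fin_two _
  show !![0, 1; 1, 0] * (g : Matrix (Fin 2) (Fin 2) F) * !![0, 1; 1, 0] = _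
  conv_lhs => rw [e3]
  ext i j
  fin_cases i <;> fin_cases j <;> simp [Matrix.mul_apply, Fin.sum_univ_two]

theorem cj_sw_up (t : F) : cj sw (up t) = lo t := by
  apply Subtype.ext
  rw [cj_sw]
  rfl

theorem cj_sw_dg (m : F) (hm : m ≠ 0) : cj sw (dg m hm) = dg m⁻¹ (inv_ne_zero hm) := by
  apply Subtype.ext
  rw [cj_sw]
  show !![m⁻¹, 0; 0, m] = !![m⁻¹, 0; 0, m⁻¹⁻¹]
  rw [inv_inv]

theorem top_of_comap {P : GL (Fin 2) F} (h : K.comap (cj P) = ⊤) : K = ⊤ := by
  rw [eq_top_iff]
  intro g _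
  have h1 : cj P⁻¹ g ∈ K.comap (cj P) := by rw [h]; exact Subgroup.mem_top _
  rw [Subgroup.mem_comap, cj_cj] at h1
  exact h1

/-- a torus, a unipotent element and an element with powers without fixed line -/
theorem step [Finite F] (hd : ∀ (m : F) (hm : m ≠ 0), dg m hm ∈ K) {u : SpecialLinearGroup (Fin 2) F} (hu : u ∈ K) (hut : tr u = 2)
    (hus : ¬ Sc u) {b : SpecialLinearGroup (Fin 2) F} (hb : b ∈ K) {m : ℕ} (hs : Semi b m)
    (hm : m = Nat.card F + 1 ∨ (Nat.card F % 2 = 1 ∧ m = Nat.card F / 2 + 1 ∧ 3 ≤ m)) : K = ⊤ := by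
  have hm2 : 1 < m := by
    have : 0 < Nat.card F := Nat.card_pos
    omega
  have hdet := det_eq u
  have htr := tr_def u
  have hdu : ((u : Matrix (Fin 2) (Fin 2) F) - 1).det = 0 := by
    rw [Matrix.det_fin_two]
    simp
    rw [hut] at htr
    linear_combination hdet + htr
  obtain ⟨v, hv, hv1⟩ := Matrix.exists_mulVec_eq_zero_iff.2 hdu
  have hfix : ac u v = v := by
    unfold ac
    rw [Matrix.sub_mulVec, Matrix.one_mulVec, sub_eq_zero] at hv1
    exact hv1
  have hb10 : b 1 0 ≠ 0 := by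
    have := hs ![1, 0] e1_ne 1 (by norm_num) hm2
    rw [pow_one, ac_0, ac_1] at this
    intro h
    apply this
    simp [h]
  have hb01 : b 0 1 ≠ 0 := by
    have := hs ![0, 1] e2_ne 1 (by norm_num) hm2
    rw [pow_one, ac_0, ac_1] at this
    intro h
    apply this
    simp [h]
  have hconj : ∀ k : SpecialLinearGroup (Fin 2) F, k ∈ K → k * u * k⁻¹ ∈ K ∧ tr (k * u * k⁻¹) = 2 ∧ ¬ Sc (k * u * k⁻¹) := by
    intro k hk
    refine ⟨K.mul_mem (K.mul_mem hk hu) (K.inv_mem hk), by rw [tr_conj, hut], ?_⟩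
    rw [← cj_gl]
    exact not_sc_cj hus _
  have hfix' : ∀ (k : SpecialLinearGroup (Fin 2) F) (c : F) (w : Fin 2 → F), c ≠ 0 → ac k v = c • w → ac (k * u * k⁻¹) w = w := by
    intro k c w hc h
    have h1 : ac (k * u * k⁻¹) (ac k v) = ac k v := by
      rw [ac_mul, ac_mul, ← ac_mul k⁻¹ k, inv_mul_cancel, ac_one, hfix]
    rw [h, ac_smul] at h1
    have h2 : c⁻¹ • (c • ac (k * u * k⁻¹) w) = c⁻¹ • (c • w) := by rw [h1]
    rwa [smul_smul, smul_smul, inv_mul_cancel₀ hc, one_smul, one_smul] at h2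
  rcases cover hd hb hs hm hv with ⟨k, hk, c, hc, e⟩ | ⟨k, hk, c, hc, e⟩
  · obtain ⟨h1, h2, h3⟩ := hconj k hk
    have h4 := hfix' k c _ hc e
    set u' := k * u * k⁻¹ with hu'
    have h00 : u' 0 0 = 1 := by
      have := congrFun h4 0
      rw [ac_0] at this
      simpa using this
    have h10 : u' 1 0 = 0 := by
      have := congrFun h4 1
      rw [ac_1] at this
      simpa using this
    have h11 : u' 1 1 = 1 := by
      rw [tr_def, h00] at h2
      linear_combination h2
    have h01 : u' 0 1 ≠ 0 := by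
      intro h
      exact h3 ⟨h, h10, by rw [h00, h11]⟩
    have hup : u' = up (u' 0 1) := by
      apply Subtype.ext
      have e3 : (u' : Matrix (Fin 2) (Fin 2) F) = !![u' 0 0, u' 0 1; u' 1 0, u' 1 1] := Matrix.eta_fin_two _
      rw [h00, h10, h11] at e3
      exact e3
    have hx : up (u' 0 1) ∈ K := by rw [← hup]; exact h1
    exact gen_top (up_all hd h01 hx) hb hb10
  · obtain ⟨h1, h2, h3⟩ := hconj k hk
    have h4 := hfix' k c _ hc e
    set u' := k * u * k⁻¹ with hu'
    have h01 : u' 0 1 = 0 := by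
      have := congrFun h4 0
      rw [ac_0] at this
      simpa using this
    have h11 : u' 1 1 = 1 := by
      have := congrFun h4 1
      rw [ac_1] at this
      simpa using this
    have h00 : u' 0 0 = 1 := by
      rw [tr_def, h11] at h2
      linear_combination h2
    have h10 : u' 1 0 ≠ 0 := by
      intro h
      exact h3 ⟨h01, h, by rw [h00, h11]⟩
    have hlo : u' = lo (u' 1 0) := by
      apply Subtype.ext
      have e3 : (u' : Matrix (Fin 2) (Fin 2) F) = !![u' 0 0, u' 0 1; u' 1 0, u' 1 1] := Matrix.eta_fin_two _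
      rw [h00, h01, h11] at e3
      exact e3
    apply top_of_comap (P := sw)
    have hd' : ∀ (m : F) (hm : m ≠ 0), dg m hm ∈ K.comap (cj sw) := by
      intro m hm
      rw [Subgroup.mem_comap, cj_sw_dg]
      exact hd _ _
    have hx : up (u' 1 0) ∈ K.comap (cj sw) := by
      rw [Subgroup.mem_comap, cj_sw_up, ← hlo]
      exact h1
    have hb' : cj sw b ∈ K.comap (cj sw) := by
      rw [Subgroup.mem_comap]
      have := cj_cj sw b
      rw [sw_sw] at this
      rw [this]
      exact hb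
    refine gen_top (up_all hd' h10 hx) hb' ?_
    rw [show (cj sw b) 1 0 = b 0 1 by rw [cj_sw]; rfl]
    exact hb01

end Pool.Agent.Helper60.Psl
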